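import Mathlib
import Pool.Agent.Lib.MP_1ad17e_al_h4.Inv

/-! MP_1ad17e_al: the subgroup generated by the involutions; sections (2.1), (6.1). -/

set_option autoImplicit false

universe u

namespace E1adH59

open Subgroup
open scoped commutatorElement Pointwise

section om

variable {G : Type u} [Group G]

/-- The subgroup generated by the involutions of `S`. -/
def Om (S : Subgroup G) : Subgroup G := closure {v | v ∈ S ∧ v * v = 1}

theorem Om_le (S : Subgroup G) : Om S ≤ S := (closure_le _).2 fun _ h => h.1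

theorem mem_Om {S : Subgroup G} {v : G} (h : v ∈ S) (h2 : v * v = 1) : v ∈ Om S :=
  subset_closure ⟨h, h2⟩

theorem Om_mono {S T : Subgroup G} (h : S ≤ T) : Om S ≤ Om T :=
  closure_mono fun _ hv => ⟨h hv.1, hv.2⟩

theorem Om_idem (S : Subgroup G) : Om (Om S) = Om S :=
  le_antisymm (Om_le _) (closure_mono fun _ hv => ⟨mem_Om hv.1 hv.2, hv.2⟩)

theorem Om_le_iff {S T : Subgroup G} : Om S ≤ T ↔ ∀ v ∈ S, v * v = 1 → v ∈ T :=
  ⟨fun h _ hv hv2 => h (mem_Om hv hv2), fun h => (closure_le _).2 fun v hv => h v hv.1 hv.2⟩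

theorem commute_Om {S : Subgroup G} {y : G} (h : ∀ v ∈ S, v * v = 1 → y * v = v * y) :
    ∀ v ∈ Om S, y * v = v * y := by
  have h1 : Om S ≤ centralizer {y} := by
    rw [Om_le_iff]
    intro v hv hv2
    rw [mem_centralizer_singleton_iff]
    exact (h v hv hv2).symm
  intro v hv
  have := h1 hv
  rw [mem_centralizer_singleton_iff] at this
  exact this.symm

theorem Om_smul (g : G) (S : Subgroup G) : Om (MulAut.conj g • S) = MulAut.conj g • Om S := by
  apply le_antisymm
  · rw [Om_le_iff]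
    intro v hv hv2
    rw [mem_pointwise_smul_iff_inv_smul_mem] at hv ⊢
    refine mem_Om hv ?_
    rw [← smul_mul', hv2, smul_one]
  · intro v hv
    rw [mem_pointwise_smul_iff_inv_smul_mem] at hv
    have h1 : Om S ≤ (MulAut.conj g)⁻¹ • Om (MulAut.conj g • S) := by
      rw [Om_le_iff]
      intro z hz hz2
      rw [mem_pointwise_smul_iff_inv_smul_mem, inv_inv]
      refine mem_Om (smul_mem_pointwise_smul _ _ _ hz) ?_
      rw [← smul_mul', hz2, smul_one]
    have h2 := h1 hv
    rw [mem_pointwise_smul_iff_inv_smul_mem, inv_inv, smul_inv_smul] at h2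
    exact h2

theorem mem_normalizer_iff_smul {S : Subgroup G} {g : G} :
    g ∈ normalizer (S : Set G) ↔ MulAut.conj g • S = S := by
  rw [mem_normalizer_iff]
  constructor
  · intro h
    ext x
    rw [mem_pointwise_smul_iff_inv_smul_mem]
    have e : (MulAut.conj g)⁻¹ • x = g⁻¹ * x * g := by
      rw [← map_inv]
      simp
    rw [e, h]
    have e2 : g * (g⁻¹ * x * g) * g⁻¹ = x := by group
    rw [e2]
  · intro h x
    constructor
    · intro hx
      rw [← h]
      exact ⟨x, hx, rfl⟩
    · intro hx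
      rw [← h, mem_pointwise_smul_iff_inv_smul_mem] at hx
      have e : (MulAut.conj g)⁻¹ • (g * x * g⁻¹) = x := by
        rw [← map_inv]
        simp [mul_assoc]
      rwa [e] at hx

theorem normalizer_le_Om (S : Subgroup G) :
    normalizer (S : Set G) ≤ normalizer (Om S : Set G) := by
  intro g hg
  rw [mem_normalizer_iff_smul] at hg ⊢
  rw [← Om_smul, hg]

end om

section fin

variable {G : Type u} [Group G] [Finite G]

theorem isPGroup_zpowers {r : G} {m : ℕ} (h : r ^ (2 ^ m) = 1) : IsPGroup 2 (zpowers r) := by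
  rw [IsPGroup.iff_card]
  rw [Nat.card_zpowers]
  obtain ⟨i, _, hi⟩ := (Nat.dvd_prime_pow Nat.prime_two).1 (orderOf_dvd_of_pow_eq_one h)
  exact ⟨i, hi⟩

/-- (2.1) -/
theorem exists_root {k : ℕ} {y r : G} (hy : y * y = 1) (hr : r ^ (2 ^ k) = y) (X : Subgroup G)
    (hX : IsPGroup 2 X) (hXy : ∀ x ∈ X, x * y = y * x) :
    ∃ T : Sylow 2 G, X ≤ T ∧ ∃ r' ∈ (T : Subgroup G), r' ^ (2 ^ k) = y := by
  have h1 : IsPGroup 2 (zpowers r) := isPGroup_zpowers (m := k + 1) (by
    rw [pow_succ, pow_mul, hr, pow_two, hy])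
  have h2 : zpowers r ≤ centralizer {y} := by
    rw [zpowers_le, mem_centralizer_singleton_iff, ← hr]
    exact (Commute.self_pow r _).eq
  have h3 : X ≤ centralizer {y} := by
    intro x hx
    rw [mem_centralizer_singleton_iff]
    exact hXy x hx
  obtain ⟨c, hc, P, hP, hXP, -, hPr⟩ := E1adH4.exists_common (centralizer {y}) X (zpowers r) hX h1 h3 h2
  obtain ⟨T, hT⟩ := hP.exists_le_sylow
  refine ⟨T, hXP.trans hT, c * r * c⁻¹, hT (hPr r (mem_zpowers r)), ?_⟩
  rw [conj_pow, hr]
  rw [mem_centralizer_singleton_iff] at hc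
  rw [hc]
  group

theorem card_Om (T S : Sylow 2 G) :
    Nat.card (Om (T : Subgroup G)) = Nat.card (Om (S : Subgroup G)) := by
  obtain ⟨g, rfl⟩ := MulAction.exists_smul_eq G S T
  rw [Sylow.coe_subgroup_smul, Om_smul]
  exact Subgroup.card_map_of_injective (MulAut.conj g).injective

/-- If `Om P ≤ T` for Sylow subgroups `P`, `T` then `Om T = Om P`. -/
theorem Om_eq_of_le {T P : Sylow 2 G} (h : Om (P : Subgroup G) ≤ T) :
    Om (T : Subgroup G) = Om (P : Subgroup G) := by
  symm
  refine Subgroup.eq_of_le_of_card_ge ?_ (card_Om T P).le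
  rw [← Om_idem (P : Subgroup G)]
  exact Om_mono h

end fin

end E1adH59
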