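import Mathlib

/-! MP_1ad17e_al, section (6.6): the numerical part. -/

set_option autoImplicit false

namespace E1adH59

open Finset

theorem sum_div_eq {q : ℕ} (hq : 0 < q) (n : ℕ) (hn : n ≤ 3 * q) :
    ∑ i ∈ range n, i / q = (n - q) + (n - 2 * q) := by
  induction n with
  | zero => simp
  | succ n ih =>
    rw [sum_range_succ, ih (by omega)]
    rcases lt_or_ge n q with h | h
    · rw [Nat.div_eq_of_lt h]
      omega
    rcases lt_or_ge n (2 * q) with h2 | h2
    · have : n / q = 1 := by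
        apply Nat.div_eq_of_lt_le <;> omega
      omega
    · have : n / q = 2 := by
        apply Nat.div_eq_of_lt_le <;> omega
      omega

/-- (6.6) -/
theorem arith {C n l : ℕ} (hn : n + 3 ≤ 12 * 2 ^ C) (hl : C + 3 ≤ l) (hlk : l ≤ n + C) :
    (∑ i ∈ range n, i / 2 ^ (l - 1)) + l ≤ n + C := by
  have hC : 1 ≤ 2 ^ C := Nat.one_le_two_pow
  rcases Nat.lt_or_ge l (C + 4) with h | h
  · have e : l = C + 3 := by omega
    subst e
    have e2 : 2 ^ (C + 3 - 1) = 4 * 2 ^ C := by
      rw [show C + 3 - 1 = C + 2 by omega, pow_add]; ring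
    rw [e2, sum_div_eq (by omega) n (by omega)]
    omega
  rcases Nat.lt_or_ge l (C + 5) with h2 | h2
  · have e : l = C + 4 := by omega
    subst e
    have e2 : 2 ^ (C + 4 - 1) = 8 * 2 ^ C := by
      rw [show C + 4 - 1 = C + 3 by omega, pow_add]; ring
    rw [e2, sum_div_eq (by omega) n (by omega)]
    omega
  · have e2 : 16 * 2 ^ C ≤ 2 ^ (l - 1) := by
      calc 16 * 2 ^ C = 2 ^ (C + 4) := by rw [pow_add]; ring
        _ ≤ 2 ^ (l - 1) := Nat.pow_le_pow_right (by omega) (by omega)
    have e3 : ∑ i ∈ range n, i / 2 ^ (l - 1) = 0 := by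
      refine sum_eq_zero fun i hi => ?_
      rw [mem_range] at hi
      exact Nat.div_eq_of_lt (by omega)
    omega

end E1adH59
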