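import Mathlib

/-!
MP_1ad17e_al, section (6.5): powers of the elements of a normal 2-subgroup `Q` are centralised by a
subgroup generated by elements of odd order which acts trivially on the `2 ^ s_j`-multiples of the
factors of the lower central series of `Q`.
-/

set_option autoImplicit false

namespace E1adH59

open Subgroup
open scoped commutatorElement

variable {G : Type*} [Group G]

theorem lcs_normal (Q : Subgroup G) [hQ : Q.Normal] (t : ℕ) : (Q.lowerCentralSeries t).Normal := by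
  induction t with
  | zero => exact hQ
  | succ t ih =>
    rw [Subgroup.lowerCentralSeries_succ]
    infer_instance

/-- The homomorphism argument: an abelian setting. `c g` is the value of the cocycle, all values commute
with each other and `f g = c g ^ N`. -/
theorem odd_kills {A : Type*} [Group A] {L : Subgroup G} (f : G → A)
    (hmul : ∀ g ∈ L, ∀ h ∈ L, f (g * h) = f g * f h) (h1 : f 1 = 1)
    (h2 : ∀ g ∈ L, ∃ m : ℕ, f g ^ (2 ^ m) = 1)
    (hL : L ≤ closure {g | g ∈ L ∧ Odd (orderOf g)}) : ∀ g ∈ L, f g = 1 := by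
  have hodd : ∀ g, g ∈ L → Odd (orderOf g) → f g = 1 := by
    intro g hg ho
    have hk : ∀ k : ℕ, f (g ^ k) = f g ^ k := by
      intro k
      induction k with
      | zero => rw [pow_zero, pow_zero, h1]
      | succ k ih => rw [pow_succ, hmul _ (pow_mem hg k) _ hg, ih, pow_succ]
    have h3 : f g ^ orderOf g = 1 := by
      rw [← hk, pow_orderOf_eq_one, h1]
    obtain ⟨m, hm⟩ := h2 g hg
    have h4 : orderOf (f g) ∣ 2 ^ m := orderOf_dvd_of_pow_eq_one hm
    have h5 : orderOf (f g) ∣ orderOf g := orderOf_dvd_of_pow_eq_one h3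
    have h6 : Nat.Coprime (2 ^ m) (orderOf g) :=
      Nat.Coprime.pow_left m (Nat.coprime_two_left.2 ho)
    have h7 : orderOf (f g) = 1 := Nat.eq_one_of_dvd_coprimes h6 h4 h5
    exact orderOf_eq_one_iff.1 h7
  intro g hg
  have key : g ∈ L ∧ f g = 1 := by
    refine Subgroup.closure_induction (p := fun x _ => x ∈ L ∧ f x = 1) ?_ ?_ ?_ ?_ (hL hg)
    · rintro x ⟨hx, ho⟩
      exact ⟨hx, hodd x hx ho⟩
    · exact ⟨one_mem _, h1⟩
    · rintro x y _ _ ⟨hx, hfx⟩ ⟨hy, hfy⟩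
      exact ⟨mul_mem hx hy, by rw [hmul x hx y hy, hfx, hfy, mul_one]⟩
    · rintro x _ ⟨hx, hfx⟩
      refine ⟨inv_mem hx, ?_⟩
      have h3 := hmul x hx x⁻¹ (inv_mem hx)
      rw [mul_inv_cancel, h1, hfx, one_mul] at h3
      exact h3.symm
  exact key.2

theorem layer_step (Q : Subgroup G) [hQn : Q.Normal] (hQ : IsPGroup 2 Q) (L : Subgroup G)
    (hL : L ≤ closure {g | g ∈ L ∧ Odd (orderOf g)}) (t s : ℕ)
    (hs : ∀ a ∈ Q.lowerCentralSeries t, ∀ g ∈ L, ⁅a, g⁆ ^ 2 ^ s ∈ Q.lowerCentralSeries (t + 1))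
    {w : G} (hw : w ∈ Q) (hwt : ∀ g ∈ L, ⁅w, g⁆ ∈ Q.lowerCentralSeries t) :
    ∀ g ∈ L, ⁅w ^ 2 ^ s, g⁆ ∈ Q.lowerCentralSeries (t + 1) := by
  haveI hN : (Q.lowerCentralSeries (t + 1)).Normal := lcs_normal Q (t + 1)
  haveI hN' : (Q.lowerCentralSeries t).Normal := lcs_normal Q t
  let π : G →* G ⧸ Q.lowerCentralSeries (t + 1) := QuotientGroup.mk' _
  have hπ : ∀ x : G, π x = 1 ↔ x ∈ Q.lowerCentralSeries (t + 1) := fun x =>
    QuotientGroup.eq_one_iff x
  -- elements of `Γ t` are central modulo `Γ (t+1)`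
  have hcent : ∀ a ∈ Q.lowerCentralSeries t, ∀ q ∈ Q, Commute (π a) (π q) := by
    intro a ha q hq
    have h1 : ⁅a, q⁆ ∈ Q.lowerCentralSeries (t + 1) := by
      rw [Subgroup.lowerCentralSeries_succ]
      exact Subgroup.commutator_mem_commutator ha hq
    rw [← hπ, map_commutatorElement, commutatorElement_eq_one_iff_commute] at h1
    exact h1
  have hle : Q.lowerCentralSeries t ≤ Q := Subgroup.lowerCentralSeries_antitone Q (Nat.zero_le t)
  have hf : ∀ g ∈ L, π ⁅w, g⁆ ^ 2 ^ s = 1 := by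
    refine odd_kills (L := L) (fun g => π ⁅w, g⁆ ^ 2 ^ s) ?_ ?_ ?_ hL
    · intro g hg h hh
      have e1 : ⁅w, g * h⁆ = ⁅w, g⁆ * (g * ⁅w, h⁆ * g⁻¹) := by
        simp only [commutatorElement_def]
        group
      have e2 : g * ⁅w, h⁆ * g⁻¹ = (⁅⁅w, h⁆, g⁆)⁻¹ * ⁅w, h⁆ := by
        simp only [commutatorElement_def]
        group
      have hm1 : ⁅w, h⁆ ∈ Q.lowerCentralSeries t := hwt h hh
      have hm2 : ⁅⁅w, h⁆, g⁆ ∈ Q.lowerCentralSeries t := by
        have : ⁅⁅w, h⁆, g⁆ = ⁅w, h⁆ * (g * (⁅w, h⁆)⁻¹ * g⁻¹) := by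
          rw [commutatorElement_def ⁅w, h⁆ g]
          group
        rw [this]
        exact mul_mem hm1 (hN'.conj_mem _ (inv_mem hm1) g)
      have hm3 : π (⁅⁅w, h⁆, g⁆) ^ 2 ^ s = 1 := by
        rw [← map_pow, hπ]
        exact hs _ hm1 g hg
      have c1 : Commute (π ⁅w, g⁆) (π ((⁅⁅w, h⁆, g⁆)⁻¹ * ⁅w, h⁆)) :=
        hcent _ (hwt g hg) _ (mul_mem (inv_mem (hle hm2)) (hle hm1))
      have c2 : Commute (π (⁅⁅w, h⁆, g⁆)⁻¹) (π ⁅w, h⁆) :=
        hcent _ (inv_mem hm2) _ (hle hm1)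
      show π ⁅w, g * h⁆ ^ 2 ^ s = π ⁅w, g⁆ ^ 2 ^ s * π ⁅w, h⁆ ^ 2 ^ s
      rw [e1, e2, map_mul, c1.mul_pow, map_mul, c2.mul_pow, map_inv, inv_pow, hm3, inv_one, one_mul]
    · show π ⁅w, (1 : G)⁆ ^ 2 ^ s = 1
      rw [commutatorElement_one_right, map_one, one_pow]
    · intro g hg
      obtain ⟨m, hm⟩ := hQ ⟨⁅w, g⁆, hle (hwt g hg)⟩
      refine ⟨m, ?_⟩
      have h3 : (⁅w, g⁆) ^ 2 ^ m = 1 := by
        have := congrArg Subtype.val hm
        simpa using this
      show (π ⁅w, g⁆ ^ 2 ^ s) ^ 2 ^ m = 1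
      rw [← pow_mul, mul_comm, pow_mul, ← map_pow π, h3, map_one, one_pow]
  intro g hg
  rw [← hπ]
  have hu : g * w * g⁻¹ ∈ Q := hQn.conj_mem w hw g
  have e0 : π w = π ⁅w, g⁆ * π (g * w * g⁻¹) := by
    rw [← map_mul]
    congr 1
    simp only [commutatorElement_def]
    group
  have c3 : Commute (π ⁅w, g⁆) (π (g * w * g⁻¹)) := hcent _ (hwt g hg) _ hu
  have e1 : ⁅w ^ 2 ^ s, g⁆ = w ^ 2 ^ s * ((g * w * g⁻¹) ^ 2 ^ s)⁻¹ := by
    rw [conj_pow]
    simp only [commutatorElement_def]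
    group
  rw [e1, map_mul, map_pow, e0, c3.mul_pow, map_inv, map_pow, hf g hg, one_mul, mul_inv_cancel]

/-- (6.5): if `L`, generated by elements of odd order, acts trivially on the `2 ^ s_j`-multiples of the
factors of the lower central series of `Q`, then it centralises all `2 ^ (s_0 + ... + s_(n-1))`-th
powers of elements of `Q`. -/
theorem layer_power (Q : Subgroup G) [Q.Normal] (hQ : IsPGroup 2 Q) (L : Subgroup G)
    (hL : L ≤ closure {g | g ∈ L ∧ Odd (orderOf g)}) (s : ℕ → ℕ)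
    (hs : ∀ t, ∀ a ∈ Q.lowerCentralSeries t, ∀ g ∈ L,
      ⁅a, g⁆ ^ 2 ^ s t ∈ Q.lowerCentralSeries (t + 1))
    {w : G} (hw : w ∈ Q) (n : ℕ) :
    ∀ g ∈ L, ⁅w ^ 2 ^ (∑ i ∈ Finset.range n, s i), g⁆ ∈ Q.lowerCentralSeries n := by
  induction n with
  | zero =>
    intro g _
    rw [Finset.sum_range_zero, pow_zero, pow_one, Subgroup.lowerCentralSeries_zero]
    have hc : Q.Normal := inferInstance
    have : ⁅w, g⁆ = w * (g * w⁻¹ * g⁻¹) := by
      simp only [commutatorElement_def]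
      group
    rw [this]
    exact mul_mem hw (hc.conj_mem _ (inv_mem hw) g)
  | succ n ih =>
    intro g hg
    rw [Finset.sum_range_succ, pow_add, pow_mul]
    exact layer_step Q hQ L hL n (s n) (hs n) (pow_mem hw _) ih g hg

end E1adH59
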