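import Mathlib
import Pool.Agent.Lib.MP_1ad17e_al_h59.Layer

/-! MP_1ad17e_al, section (6.5) for one element of odd order, from (6.4). -/

set_option autoImplicit false

namespace E1adH59

open Subgroup
open scoped commutatorElement

variable {H : Type*} [Group H]

/-- The statement (6.4) for one element `h`. -/
def Layer64 (Q T : Subgroup H) (r : H) (a n : ℕ) : Prop :=
  ∀ h : H, h ∈ normalClosure {r ^ (2 ^ a)} ⊔ Q → Odd (orderOf h) → ∀ j s : ℕ,
    n ≤ j + 2 ^ a * (s + 1) → ∀ u ∈ Q.lowerCentralSeries j,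
      h * u ^ (2 ^ s) * h⁻¹ * (u ^ (2 ^ s))⁻¹ ∈ Q.lowerCentralSeries (j + 1)

theorem comm_pow_of (Q : Subgroup H) [hQn : Q.Normal] (t N : ℕ) {u h : H}
    (hu : u ∈ Q.lowerCentralSeries t)
    (hs : h * u ^ N * h⁻¹ * (u ^ N)⁻¹ ∈ Q.lowerCentralSeries (t + 1)) :
    ⁅u, h⁆ ^ N ∈ Q.lowerCentralSeries (t + 1) := by
  have hN : (Q.lowerCentralSeries (t + 1)).Normal := lcs_normal Q (t + 1)
  have hN' : (Q.lowerCentralSeries t).Normal := lcs_normal Q t
  let π : H →* H ⧸ Q.lowerCentralSeries (t + 1) := QuotientGroup.mk' _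
  have hπ : ∀ x : H, π x = 1 ↔ x ∈ Q.lowerCentralSeries (t + 1) := fun x =>
    QuotientGroup.eq_one_iff x
  have hle : Q.lowerCentralSeries t ≤ Q := Subgroup.lowerCentralSeries_antitone Q (Nat.zero_le t)
  have hv : h * u * h⁻¹ ∈ Q := hle (hN'.conj_mem _ hu h)
  have hc : ⁅u, h⁆ ∈ Q.lowerCentralSeries t := by
    have : ⁅u, h⁆ = u * (h * u⁻¹ * h⁻¹) := by
      simp only [commutatorElement_def]
      group
    rw [this]
    exact mul_mem hu (hN'.conj_mem _ (inv_mem hu) h)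
  have hcent : Commute (π ⁅u, h⁆) (π (h * u * h⁻¹)) := by
    have h1 : ⁅⁅u, h⁆, h * u * h⁻¹⁆ ∈ Q.lowerCentralSeries (t + 1) := by
      rw [Subgroup.lowerCentralSeries_succ]
      exact Subgroup.commutator_mem_commutator hc hv
    rw [← hπ, map_commutatorElement, commutatorElement_eq_one_iff_commute] at h1
    exact h1
  have e0 : π u = π ⁅u, h⁆ * π (h * u * h⁻¹) := by
    rw [← map_mul]
    congr 1
    simp only [commutatorElement_def]
    group
  have e1 : π (h * u ^ N * h⁻¹) = π (u ^ N) := by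
    have := (hπ _).2 hs
    rw [map_mul, map_inv, mul_inv_eq_one] at this
    exact this
  have e2 : π u ^ N = π ⁅u, h⁆ ^ N * π u ^ N := by
    conv_lhs => rw [e0, hcent.mul_pow, ← map_pow π (h * u * h⁻¹), conj_pow, e1, map_pow π u]
  rw [← hπ, map_pow]
  exact (mul_eq_right.1 e2.symm)

theorem layer65_of (Q T : Subgroup H) [Q.Normal] (hT : IsPGroup 2 T) (hQT : Q ≤ T) (n : ℕ)
    (hTn : T.lowerCentralSeries n = ⊥) (r : H) (a : ℕ) (h64 : Layer64 Q T r a n) (g : H)
    (hg : g ∈ normalClosure {r ^ (2 ^ a)} ⊔ Q) (hodd : Odd (orderOf g)) {w : H} (hw : w ∈ Q) :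
    g * w ^ (2 ^ (∑ i ∈ Finset.range n, i / 2 ^ a)) =
      w ^ (2 ^ (∑ i ∈ Finset.range n, i / 2 ^ a)) * g := by
  have hQ : IsPGroup 2 Q := hT.to_le hQT
  have hmono : ∀ m, Q.lowerCentralSeries m ≤ T.lowerCentralSeries m := by
    intro m
    induction m with
    | zero => exact hQT
    | succ m ih => exact Subgroup.commutator_mono ih hQT
  have hL : zpowers g ≤ closure {x | x ∈ zpowers g ∧ Odd (orderOf x)} := by
    rw [zpowers_eq_closure]
    refine closure_mono ?_
    rintro x rfl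
    exact ⟨subset_closure rfl, hodd⟩
  have hodd' : ∀ x ∈ zpowers g, Odd (orderOf x) := by
    intro x hx
    exact Odd.of_dvd_nat hodd (orderOf_dvd_of_mem_zpowers hx)
  have key := layer_power Q hQ (zpowers g) hL (fun t => (n - 1 - t) / 2 ^ a) (by
    intro t u hu x hx
    refine comm_pow_of Q t _ hu ?_
    refine h64 x ?_ (hodd' x hx) t _ ?_ u hu
    · exact (zpowers_le.2 hg) hx
    · have h1 := Nat.lt_mul_div_succ (n - 1 - t) (show 0 < 2 ^ a by positivity)
      omega) hw n g (mem_zpowers g)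
  have e : ∑ i ∈ Finset.range n, (n - 1 - i) / 2 ^ a = ∑ i ∈ Finset.range n, i / 2 ^ a :=
    Finset.sum_range_reflect (fun i => i / 2 ^ a) n
  rw [e] at key
  have h3 := hmono n key
  rw [hTn, mem_bot, commutatorElement_eq_one_iff_mul_comm] at h3
  exact h3.symm

end E1adH59
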