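import Mathlib

/-! MP_1ad17e_al, section (6.3): Sylow 2-subgroups and the preimage of `O_2(K / C)`. -/

set_option autoImplicit false

namespace E1adH59

open Subgroup
open scoped Pointwise

variable {K : Type*} [Group K] [Finite K]

theorem card_conj_inf (O : Subgroup K) [hO : O.Normal] (T S : Sylow 2 K) :
    Nat.card ((S : Subgroup K) ⊓ O : Subgroup K) = Nat.card ((T : Subgroup K) ⊓ O : Subgroup K) := by
  obtain ⟨g, hg⟩ := MulAction.exists_smul_eq K T S
  have e : ((S : Subgroup K) ⊓ O : Subgroup K) =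
      ((T : Subgroup K) ⊓ O : Subgroup K).map (MulAut.conj g).toMonoidHom := by
    ext x
    rw [mem_inf, mem_map, ← hg, Sylow.coe_subgroup_smul, mem_pointwise_smul_iff_inv_smul_mem]
    have e1 : (MulAut.conj g)⁻¹ • x = g⁻¹ * x * g := by
      rw [← map_inv]
      simp
    rw [e1]
    constructor
    · rintro ⟨h1, h2⟩
      refine ⟨g⁻¹ * x * g, mem_inf.2 ⟨h1, ?_⟩, ?_⟩
      · have := hO.conj_mem x h2 g⁻¹
        rwa [inv_inv] at this
      · simp [mul_assoc]
    · rintro ⟨y, hy, rfl⟩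
      rw [mem_inf] at hy
      have e2 : g⁻¹ * ((MulAut.conj g).toMonoidHom y) * g = y := by
        simp [mul_assoc]
      rw [e2]
      refine ⟨hy.1, ?_⟩
      have := hO.conj_mem y hy.2 g
      simpa using this
  rw [e]
  exact Subgroup.card_map_of_injective (MulAut.conj g).injective

theorem exists_sylow_inf (O : Subgroup K) [hO : O.Normal] (T : Sylow 2 K) :
    ∃ P : Sylow 2 O, (P : Subgroup O) = (T : Subgroup K).subgroupOf O := by
  have h1 : IsPGroup 2 ((T : Subgroup K).subgroupOf O) :=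
    T.isPGroup'.comap_of_injective O.subtype O.subtype_injective
  obtain ⟨P, hP⟩ := h1.exists_le_sylow
  refine ⟨P, ?_⟩
  obtain ⟨S, hS⟩ := P.exists_comap_subtype_eq
  have hS' : (S : Subgroup K).subgroupOf O = (P : Subgroup O) := hS
  symm
  refine Subgroup.eq_of_le_of_card_ge hP ?_
  rw [← hS']
  have e1 : Nat.card ((S : Subgroup K).subgroupOf O) =
      Nat.card ((S : Subgroup K) ⊓ O : Subgroup K) := by
    rw [← inf_subgroupOf_right]
    exact Nat.card_congr (subgroupOfEquivOfLe inf_le_right).toEquiv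
  have e2 : Nat.card ((T : Subgroup K).subgroupOf O) =
      Nat.card ((T : Subgroup K) ⊓ O : Subgroup K) := by
    rw [← inf_subgroupOf_right]
    exact Nat.card_congr (subgroupOfEquivOfLe inf_le_right).toEquiv
  rw [e1, e2]
  exact (card_conj_inf O T S).le

theorem inf_conj (O : Subgroup K) [hO : O.Normal] (T T' : Sylow 2 K) :
    ∃ o ∈ O, ∀ x, x ∈ (T' : Subgroup K) ⊓ O ↔ o⁻¹ * x * o ∈ (T : Subgroup K) ⊓ O := by
  obtain ⟨P, hP⟩ := exists_sylow_inf O T
  obtain ⟨P', hP'⟩ := exists_sylow_inf O T'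
  obtain ⟨o, ho⟩ := MulAction.exists_smul_eq O P P'
  refine ⟨o, o.2, fun x => ?_⟩
  have key : ∀ y : O, (y : K) ∈ (T' : Subgroup K) ↔ ((o : K)⁻¹ * y * o) ∈ (T : Subgroup K) := by
    intro y
    have h1 : (y : K) ∈ (T' : Subgroup K) ↔ y ∈ (P' : Subgroup O) := by
      rw [hP', mem_subgroupOf]
    rw [h1, ← ho, Sylow.coe_subgroup_smul, mem_pointwise_smul_iff_inv_smul_mem, hP, mem_subgroupOf]
    have e1 : (((MulAut.conj o)⁻¹ • y : O) : K) = (o : K)⁻¹ * y * o := by
      rw [← map_inv]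
      simp
    rw [e1]
  constructor
  · intro hx
    rw [mem_inf] at hx ⊢
    refine ⟨(key ⟨x, hx.2⟩).1 hx.1, ?_⟩
    have := hO.conj_mem x hx.2 (o : K)⁻¹
    rwa [inv_inv] at this
  · intro hx
    rw [mem_inf] at hx ⊢
    have hxO : x ∈ O := by
      have := hO.conj_mem _ hx.2 (o : K)
      have e : (o : K) * ((o : K)⁻¹ * x * o) * (o : K)⁻¹ = x := by group
      rwa [e] at this
    exact ⟨(key ⟨x, hxO⟩).2 hx.1, hxO⟩

end E1adH59
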