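import Mathlib
import Pool.Agent.Lib.MP_1ad17e_al_h59.Layer65
import Pool.Agent.Lib.MP_1ad17e_al_h59.SylInf
import Pool.Agent.Lib.MP_1ad17e_al_h59.Arith

/-! MP_1ad17e_al, sections (6.3), (6.6). -/

set_option autoImplicit false

universe u

namespace E1adH59

open Subgroup
open scoped commutatorElement Pointwise

/-- (6.4) -/
def L64 : Prop := ∀ (H : Type u) [Group H] [Finite H] (Q T : Subgroup H) [Q.Normal], IsPGroup 2 T →
  Q ≤ T → ∀ n : ℕ, T.lowerCentralSeries n = ⊥ → ∀ r ∈ T, ∀ a : ℕ, r ^ (2 ^ (a + 1)) ∈ Q →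
    Layer64 Q T r a n

section core

variable {K : Type u} [Group K] [Finite K] (C : Subgroup K) [hC : C.Normal] (P : Sylow 2 K)

/-- The preimage of `O_2(K / C)`. -/
noncomputable def OO : Subgroup K :=
  (((P : Subgroup K).map (QuotientGroup.mk' C)).normalCore).comap (QuotientGroup.mk' C)

instance OO_normal : (OO C P).Normal := by
  unfold OO
  infer_instance

omit [Finite K] in
theorem le_OO : C ≤ OO C P := by
  intro c hc
  rw [OO, mem_comap]
  have : QuotientGroup.mk' C c = 1 := (QuotientGroup.eq_one_iff c).2 hc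
  rw [this]
  exact one_mem _

omit [Finite K] in
theorem OO_eq {o : K} (ho : o ∈ OO C P) : ∃ c ∈ C, ∃ q ∈ (P : Subgroup K) ⊓ OO C P, o = c * q := by
  have h1 : QuotientGroup.mk' C o ∈ (P : Subgroup K).map (QuotientGroup.mk' C) :=
    normalCore_le _ ho
  obtain ⟨p, hp, hpo⟩ := h1
  refine ⟨o * p⁻¹, ?_, p, mem_inf.2 ⟨hp, ?_⟩, by group⟩
  · have : QuotientGroup.mk' C (o * p⁻¹) = 1 := by
      rw [map_mul, map_inv, hpo, mul_inv_cancel]
    exact (QuotientGroup.eq_one_iff _).1 this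
  · rw [OO, mem_comap, hpo]
    exact ho

/-- Every normal subgroup modulo `C` which is a 2-group modulo `C` lies in `OO`. -/
theorem le_OO_of (L : Subgroup K) (hL : ∀ g ∈ L, ∃ m : ℕ, g ^ (2 ^ m) ∈ C)
    (hn : (L.map (QuotientGroup.mk' C)).Normal) : L ≤ OO C P := by
  have h1 : IsPGroup 2 (L.map (QuotientGroup.mk' C)) := by
    rintro ⟨z, hz⟩
    obtain ⟨g, hg, rfl⟩ := mem_map.1 hz
    obtain ⟨m, hm⟩ := hL g hg
    refine ⟨m, ?_⟩
    apply Subtype.ext
    show (QuotientGroup.mk' C g) ^ 2 ^ m = 1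
    rw [← map_pow]
    exact (QuotientGroup.eq_one_iff _).2 hm
  have h2 := h1.le_sylow_of_normal (P.mapSurjective (QuotientGroup.mk'_surjective C))
  rw [Sylow.coe_mapSurjective] at h2
  have h3 : L.map (QuotientGroup.mk' C) ≤
      ((P : Subgroup K).map (QuotientGroup.mk' C)).normalCore := normal_le_normalCore.2 h2
  intro g hg
  rw [OO, mem_comap]
  exact h3 (mem_map_of_mem _ hg)

/-- Claim (A). -/
theorem claimA (T : Sylow 2 K) : ∃ c ∈ C, ∀ x, x ∈ (T : Subgroup K) ⊓ OO C P ↔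
    c⁻¹ * x * c ∈ (P : Subgroup K) ⊓ OO C P := by
  obtain ⟨o, ho, h⟩ := inf_conj (OO C P) P T
  obtain ⟨c, hc, q, hq, rfl⟩ := OO_eq C P ho
  refine ⟨c, hc, fun x => ?_⟩
  rw [h]
  have e : (c * q)⁻¹ * x * (c * q) = q⁻¹ * (c⁻¹ * x * c) * q := by group
  rw [e]
  constructor
  · intro h1
    have := mul_mem (mul_mem hq h1) (inv_mem hq)
    have e2 : q * (q⁻¹ * (c⁻¹ * x * c) * q) * q⁻¹ = c⁻¹ * x * c := by group
    rwa [e2] at this
  · intro h1
    exact mul_mem (mul_mem (inv_mem hq) h1) hq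

/-- Claim (A), for elements of the group. -/
theorem claimA' (g : K) : ∃ c ∈ C, ∃ ν ∈ normalizer ((((P : Subgroup K) ⊓ OO C P : Subgroup K)) : Set K),
    g = c * ν := by
  obtain ⟨c, hc, h⟩ := claimA C P (g • P)
  refine ⟨c, hc, c⁻¹ * g, ?_, by group⟩
  have hg : ∀ x, x ∈ ((g • P : Sylow 2 K) : Subgroup K) ⊓ OO C P ↔
      g⁻¹ * x * g ∈ (P : Subgroup K) ⊓ OO C P := by
    intro x
    rw [mem_inf, mem_inf, Sylow.coe_subgroup_smul, mem_pointwise_smul_iff_inv_smul_mem]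
    have e1 : (MulAut.conj g)⁻¹ • x = g⁻¹ * x * g := by
      rw [← map_inv]
      simp
    rw [e1]
    have e2 : x ∈ OO C P ↔ g⁻¹ * x * g ∈ OO C P := by
      constructor
      · intro hx
        have := (OO_normal C P).conj_mem x hx g⁻¹
        rwa [inv_inv] at this
      · intro hx
        have := (OO_normal C P).conj_mem _ hx g
        have e : g * (g⁻¹ * x * g) * g⁻¹ = x := by group
        rwa [e] at this
    rw [e2]
  rw [mem_normalizer_iff]
  intro q
  have h1 := (hg (g * q * g⁻¹)).symm.trans (h (g * q * g⁻¹))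
  have e1 : g⁻¹ * (g * q * g⁻¹) * g = q := by group
  have e2 : c⁻¹ * (g * q * g⁻¹) * c = c⁻¹ * g * q * (c⁻¹ * g)⁻¹ := by group
  rw [e1, e2] at h1
  exact h1

end core

/-- Sylow subgroups have the same class. -/
theorem sylow_lcs {K : Type u} [Group K] [Finite K] (P T : Sylow 2 K) {n : ℕ}
    (hP : (P : Subgroup K).lowerCentralSeries n = ⊥) : (T : Subgroup K).lowerCentralSeries n = ⊥ := by
  obtain ⟨g, rfl⟩ := MulAction.exists_smul_eq K P T
  have e : ((g • P : Sylow 2 K) : Subgroup K) = (P : Subgroup K).map (MulAut.conj g).toMonoidHom := rfl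
  rw [e, ← map_lowerCentralSeries, hP, Subgroup.map_bot]

theorem sec6 (h64 : L64.{u}) {K : Type u} [Group K] [Finite K] (F : Set K)
    (hF : ∀ y ∈ F, ∀ g : K, g * y * g⁻¹ ∈ F) (hcomm : ∀ y ∈ F, ∀ y' ∈ F, y * y' = y' * y)
    (P : Sylow 2 K) {n k C : ℕ} (hP : (P : Subgroup K).lowerCentralSeries n = ⊥) (hk : k = n + C)
    (hn : n + 3 ≤ 12 * 2 ^ C)
    (hroot : ∀ y ∈ F, ∃ r : K, r ^ (2 ^ k) = y ∧ ∃ T : Sylow 2 K, r ∈ (T : Subgroup K))
    {y0 : K} (hy0 : y0 ∈ F) :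
    ∃ T : Sylow 2 K, ∃ r ∈ (T : Subgroup K), r ^ (2 ^ k) = y0 ∧
      r ^ (2 ^ (C + 2)) ∈ (P : Subgroup K) := by
  classical
  by_contra hcon
  let CV : Subgroup K := centralizer F
  have hCV : CV.Normal := by
    refine ⟨fun c hc g => ?_⟩
    rw [mem_centralizer_iff] at hc ⊢
    intro y hy
    have h1 := hc (g⁻¹ * y * g) (by
      have := hF y hy g⁻¹
      rwa [inv_inv] at this)
    calc y * (g * c * g⁻¹) = g * ((g⁻¹ * y * g) * c) * g⁻¹ := by group
      _ = g * (c * (g⁻¹ * y * g)) * g⁻¹ := by rw [h1]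
      _ = g * c * g⁻¹ * y := by group
  let O : Subgroup K := OO CV P
  have hOn : O.Normal := OO_normal CV P
  let Q : Subgroup K := (P : Subgroup K) ⊓ O
  let K1 : Subgroup K := normalizer (Q : Set K)
  -- roots in good position
  let Rt : K → K → Prop := fun y r => r ^ (2 ^ k) = y ∧
    ∃ T : Sylow 2 K, r ∈ (T : Subgroup K) ∧ (T : Subgroup K) ⊓ O = Q
  have hRt : ∀ y ∈ F, ∃ r, Rt y r := by
    intro y hy
    obtain ⟨r, hr, T, hrT⟩ := hroot y hy
    obtain ⟨c, hc, h⟩ := claimA CV P T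
    refine ⟨c⁻¹ * r * c, ?_, c⁻¹ • T, ?_, ?_⟩
    · have e : (c⁻¹ * r * c) ^ (2 ^ k) = c⁻¹ * r ^ (2 ^ k) * c := by
        have := conj_pow (i := 2 ^ k) (a := c⁻¹) (b := r)
        rwa [inv_inv] at this
      rw [e, hr]
      have h1 := (mem_centralizer_iff.1 hc) y hy
      rw [mul_assoc, h1]
      group
    · rw [Sylow.coe_subgroup_smul, mem_pointwise_smul_iff_inv_smul_mem, ← map_inv, inv_inv]
      have e : MulAut.conj c • (c⁻¹ * r * c) = r := by
        simp [mul_assoc]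
      rw [e]
      exact hrT
    · ext x
      have e : x ∈ ((c⁻¹ • T : Sylow 2 K) : Subgroup K) ⊓ O ↔
          c * x * c⁻¹ ∈ (T : Subgroup K) ⊓ O := by
        rw [mem_inf, mem_inf, Sylow.coe_subgroup_smul, mem_pointwise_smul_iff_inv_smul_mem, ← map_inv,
          inv_inv]
        have e1 : MulAut.conj c • x = c * x * c⁻¹ := by simp
        rw [e1]
        have e2 : x ∈ O ↔ c * x * c⁻¹ ∈ O := by
          constructor
          · exact fun hx => hOn.conj_mem x hx c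
          · intro hx
            have := hOn.conj_mem _ hx c⁻¹
            have e : c⁻¹ * (c * x * c⁻¹) * c⁻¹⁻¹ = x := by group
            rwa [e] at this
        rw [e2]
      rw [e, h]
      have e3 : c⁻¹ * (c * x * c⁻¹) * c = x := by group
      rw [e3]
  have hFQ : ∀ y ∈ F, ∀ r, Rt y r → y ∈ Q := by
    rintro y hy r ⟨hr, T, hrT, hT⟩
    rw [← hT, mem_inf]
    refine ⟨hr ▸ pow_mem hrT _, le_OO CV P ?_⟩
    show y ∈ centralizer F
    rw [mem_centralizer_iff]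
    intro y' hy'
    exact hcomm y' hy' y hy
  -- the number l
  have hex : ∃ l : ℕ, ∀ y ∈ F, ∃ r, Rt y r ∧ r ^ (2 ^ l) ∈ Q := by
    refine ⟨k, fun y hy => ?_⟩
    obtain ⟨r, hr⟩ := hRt y hy
    refine ⟨r, hr, ?_⟩
    rw [hr.1]
    exact hFQ y hy r hr
  have hlk : Nat.find hex ≤ k := by
    refine Nat.find_min' hex fun y hy => ?_
    obtain ⟨r, hr⟩ := hRt y hy
    refine ⟨r, hr, ?_⟩
    rw [hr.1]
    exact hFQ y hy r hr
  obtain ⟨l, hl⟩ : ∃ l, l = Nat.find hex := ⟨_, rfl⟩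
  have hlspec : ∀ y ∈ F, ∃ r, Rt y r ∧ r ^ (2 ^ l) ∈ Q := by
    rw [hl]
    exact Nat.find_spec hex
  rw [← hl] at hlk
  have hlC : C + 3 ≤ l := by
    by_contra hlt
    obtain ⟨r, ⟨hr, T, hrT, hT⟩, hrl⟩ := hlspec y0 hy0
    refine hcon ⟨T, r, hrT, hr, ?_⟩
    have e : r ^ (2 ^ (C + 2)) = (r ^ (2 ^ l)) ^ (2 ^ (C + 2 - l)) := by
      rw [← pow_mul, ← pow_add]
      congr 2
      omega
    rw [e]
    exact pow_mem (mem_inf.1 hrl).1 _
  -- a bad root
  obtain ⟨y1, hy1, hbad⟩ : ∃ y ∈ F, ∀ r, Rt y r → r ^ (2 ^ (l - 1)) ∉ Q := by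
    have h1 : ¬ ∀ y ∈ F, ∃ r, Rt y r ∧ r ^ (2 ^ (l - 1)) ∈ Q :=
      Nat.find_min hex (m := l - 1) (by omega)
    push Not at h1
    exact h1
  obtain ⟨r1, hr1, hr1l⟩ := hlspec y1 hy1
  have hx := hbad r1 hr1
  obtain ⟨hr1y, T1, hr1T, hT1⟩ := hr1
  have hT1K : (T1 : Subgroup K) ≤ K1 := by
    intro t ht
    show t ∈ normalizer (Q : Set K)
    rw [← hT1, mem_normalizer_iff]
    intro q
    rw [mem_inf, mem_inf]
    constructor
    · rintro ⟨h1, h2⟩
      exact ⟨mul_mem (mul_mem ht h1) (inv_mem ht), hOn.conj_mem _ h2 _⟩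
    · rintro ⟨h1, h2⟩
      have e : q = t⁻¹ * (t * q * t⁻¹) * t := by group
      refine ⟨?_, ?_⟩
      · rw [e]
        exact mul_mem (mul_mem (inv_mem ht) h1) ht
      · have := hOn.conj_mem _ h2 t⁻¹
        rwa [inv_inv, ← e] at this
  have hQT1 : Q ≤ (T1 : Subgroup K) := by
    rw [← hT1]
    exact inf_le_left
  have hQK1 : Q ≤ K1 := le_normalizer
  let a := l - 1
  let rr : K1 := ⟨r1, hT1K hr1T⟩
  let Q1 : Subgroup K1 := Q.subgroupOf K1
  have hQ1 : Q1.Normal := normal_in_normalizer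
  let TT : Subgroup K1 := (T1 : Subgroup K).subgroupOf K1
  have hTT : IsPGroup 2 TT := T1.isPGroup'.comap_of_injective K1.subtype K1.subtype_injective
  have hQTT : Q1 ≤ TT := fun z hz => hQT1 hz
  have hTTn : TT.lowerCentralSeries n = ⊥ := by
    have e1 : TT.map K1.subtype = (T1 : Subgroup K) := by
      rw [subgroupOf_map_subtype]
      exact inf_eq_left.2 hT1K
    have e2 : (TT.lowerCentralSeries n).map K1.subtype = ⊥ := by
      rw [map_lowerCentralSeries, e1]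
      exact sylow_lcs P T1 hP
    exact (map_eq_bot_iff_of_injective _ K1.subtype_injective).1 e2
  have hrrT : rr ∈ TT := hr1T
  have hrrl : rr ^ (2 ^ (a + 1)) ∈ Q1 := by
    show ((rr ^ (2 ^ (a + 1)) : K1) : K) ∈ Q
    have e : a + 1 = l := by
      show l - 1 + 1 = l
      omega
    rw [e]
    exact hr1l
  have h64' : Layer64 Q1 TT rr a n := h64 K1 Q1 TT hTT hQTT n hTTn rr hrrT a hrrl
  let L : Subgroup K1 := normalClosure {rr ^ (2 ^ a)} ⊔ Q1
  have hLn : L.Normal := inferInstance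
  -- the elements of odd order of `L` centralise `F`
  have hodd : ∀ g ∈ L, Odd (orderOf g) → (g : K) ∈ CV := by
    intro g hg ho
    show (g : K) ∈ centralizer F
    rw [mem_centralizer_iff]
    intro y hy
    obtain ⟨r, hr, hrl⟩ := hlspec y hy
    have hw : (⟨r ^ (2 ^ l), hQK1 hrl⟩ : K1) ∈ Q1 := hrl
    have h1 := layer65_of Q1 TT hTT hQTT n hTTn rr a h64' g hg ho hw
    have h2 := congrArg (Subtype.val) h1
    simp only [Subgroup.coe_mul, SubmonoidClass.coe_pow] at h2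
    have har := arith (C := C) (n := n) (l := l) hn hlC (by omega)
    set M := ∑ i ∈ Finset.range n, i / 2 ^ a with hM
    have har' : M + l ≤ n + C := har
    have e : y = ((r ^ (2 ^ l)) ^ (2 ^ M)) ^ (2 ^ (k - l - M)) := by
      rw [← hr.1, ← pow_mul, ← pow_mul, ← pow_add, ← pow_add]
      congr 2
      omega
    have h3 : Commute ((r ^ (2 ^ l)) ^ (2 ^ M)) (g : K) := h2.symm
    have h4 := h3.pow_left (2 ^ (k - l - M))
    rw [← e] at h4
    exact h4
  -- so `L` is a 2-group modulo `CV`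
  have hLO : L.map K1.subtype ≤ OO CV P := by
    refine le_OO_of CV P _ ?_ ?_
    · rintro _ ⟨g, hg, rfl⟩
      obtain ⟨e, o, ho, heo⟩ := Nat.exists_eq_two_pow_mul_odd (n := orderOf g) (orderOf_pos g).ne'
      refine ⟨e, ?_⟩
      have h1 : orderOf (g ^ (2 ^ e)) = o := by
        rw [orderOf_pow_of_dvd (by positivity) (heo ▸ dvd_mul_right _ _), heo]
        exact Nat.mul_div_cancel_left _ (by positivity)
      have := hodd (g ^ (2 ^ e)) (pow_mem hg _) (by rw [h1]; exact ho)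
      simpa using this
    · refine ⟨?_⟩
      rintro _ ⟨_, ⟨g, hg, rfl⟩, rfl⟩ z
      obtain ⟨z, rfl⟩ := QuotientGroup.mk'_surjective CV z
      obtain ⟨c, hc, ν, hν, rfl⟩ := claimA' CV P z
      have e1 : QuotientGroup.mk' CV (c * ν) = QuotientGroup.mk' CV ν := by
        rw [map_mul]
        have : QuotientGroup.mk' CV c = 1 := (QuotientGroup.eq_one_iff c).2 hc
        rw [this, one_mul]
      rw [e1]
      refine ⟨K1.subtype ((⟨ν, hν⟩ : K1) * g * (⟨ν, hν⟩ : K1)⁻¹), ?_, ?_⟩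
      · exact mem_map_of_mem _ (hLn.conj_mem g hg _)
      · simp
  apply hx
  rw [← hT1, mem_inf]
  refine ⟨pow_mem hr1T _, hLO ?_⟩
  refine ⟨rr ^ (2 ^ a), ?_, rfl⟩
  exact (le_sup_left : _ ≤ L) (subset_normalClosure rfl)

end E1adH59
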