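import Mathlib
import Pool.Agent.Lib.MP_1ad17e_al_h4.Lam

/-! MP_1ad17e_al: the lower exponent-2 central series. -/

set_option autoImplicit false

universe u

namespace E1adH59

open Subgroup
open scoped commutatorElement Pointwise

section defs

variable {G : Type u} [Group G]

/-- The lower exponent-2 central series of `S`; `lamS S 0 = S`. -/
def lamS (S : Subgroup G) : ℕ → Subgroup G
  | 0 => S
  | j + 1 => ⁅lamS S j, S⁆ ⊔ closure {z | ∃ x ∈ lamS S j, z = x * x}

theorem lamS_comm {S : Subgroup G} {j : ℕ} {x t : G} (hx : x ∈ lamS S j) (ht : t ∈ S) :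
    ⁅x, t⁆ ∈ lamS S (j + 1) :=
  mem_sup_left (commutator_mem_commutator hx ht)

theorem lamS_sq {S : Subgroup G} {j : ℕ} {x : G} (hx : x ∈ lamS S j) : x * x ∈ lamS S (j + 1) :=
  mem_sup_right (subset_closure ⟨x, hx, rfl⟩)

theorem lamS_map {H : Type*} [Group H] (f : G →* H) (S : Subgroup G) (j : ℕ) :
    (lamS S j).map f = lamS (S.map f) j := by
  induction j with
  | zero => rfl
  | succ j ih =>
    rw [lamS, lamS, Subgroup.map_sup, map_commutator, ih, MonoidHom.map_closure]
    congr 2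
    ext z
    constructor
    · rintro ⟨_, ⟨x, hx, rfl⟩, rfl⟩
      refine ⟨f x, ?_, map_mul f x x⟩
      rw [← ih]
      exact mem_map_of_mem f hx
    · rintro ⟨w, hw, rfl⟩
      rw [← ih] at hw
      obtain ⟨x, hx, rfl⟩ := hw
      exact ⟨x * x, ⟨x, hx, rfl⟩, map_mul f x x⟩

theorem lamS_conj {S : Subgroup G} {j : ℕ} {x t : G} (hx : x ∈ lamS S j) (ht : t ∈ S) :
    t * x * t⁻¹ ∈ lamS S j := by
  have h1 := lamS_map (MulAut.conj t).toMonoidHom S j
  have h2 : S.map (MulAut.conj t).toMonoidHom = S := by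
    ext z
    constructor
    · rintro ⟨w, hw, rfl⟩
      exact mul_mem (mul_mem ht hw) (inv_mem ht)
    · intro hz
      refine ⟨t⁻¹ * z * t, mul_mem (mul_mem (inv_mem ht) hz) ht, ?_⟩
      simp [mul_assoc]
  rw [h2] at h1
  rw [← h1]
  exact ⟨x, hx, rfl⟩

theorem lamS_succ_le (S : Subgroup G) (j : ℕ) : lamS S (j + 1) ≤ lamS S j := by
  refine sup_le ?_ ((closure_le _).2 ?_)
  · rw [commutator_le]
    intro x hx t ht
    have e : ⁅x, t⁆ = x * (t * x⁻¹ * t⁻¹) := by
      rw [commutatorElement_def]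
      group
    rw [e]
    exact mul_mem hx (lamS_conj (inv_mem hx) ht)
  · rintro _ ⟨x, hx, rfl⟩
    exact mul_mem hx hx

theorem lamS_anti (S : Subgroup G) {i j : ℕ} (h : i ≤ j) : lamS S j ≤ lamS S i := by
  induction h with
  | refl => exact le_rfl
  | step _ ih => exact (lamS_succ_le S _).trans ih

theorem lamS_le (S : Subgroup G) (j : ℕ) : lamS S j ≤ S := lamS_anti S (Nat.zero_le j)

theorem lamS_pow {S : Subgroup G} {i : ℕ} {x : G} (hx : x ∈ lamS S i) (a : ℕ) :
    x ^ (2 ^ a) ∈ lamS S (i + a) := by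
  induction a with
  | zero => simpa using hx
  | succ a ih =>
    rw [pow_succ, pow_mul, pow_two]
    exact lamS_sq ih

end defs

section lamTop

variable {H : Type u} [Group H]

open E1adH4

theorem Lam_comm {i : ℕ} {x t : H} (hx : x ∈ Lam H i) : ⁅x, t⁆ ∈ Lam H (i + 1) := by
  rw [mem_Lam]
  intro c hc j k hk
  have hM : (KS (normalClosure {c}) (j + (i + 1))).Normal := KS_normal _ _
  let π : H →* H ⧸ KS (normalClosure {c}) (j + (i + 1)) := QuotientGroup.mk' _
  have hπ : ∀ z : H, π z = 1 ↔ z ∈ KS (normalClosure {c}) (j + (i + 1)) := fun z =>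
    QuotientGroup.eq_one_iff z
  have h3 : ⁅⁅(Lam H i).map π, (⊤ : Subgroup H).map π⁆, (KS (normalClosure {c}) j).map π⁆ = ⊥ := by
    apply commutator_commutator_eq_bot_of_rotate
    · rw [← map_commutator, ← map_commutator, Subgroup.map_eq_bot_iff, QuotientGroup.ker_mk', commutator_le]
      intro a ha b hb
      have ha' : a ∈ KS (normalClosure {c}) (j + 1) := by
        rw [commutator_comm] at ha
        exact ha
      have := mem_Lam.1 hb c hc (j + 1) a ha'
      rwa [show j + 1 + i = j + (i + 1) by omega] at this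
    · rw [← map_commutator, ← map_commutator, Subgroup.map_eq_bot_iff, QuotientGroup.ker_mk']
      have h4 : ⁅KS (normalClosure {c}) j, Lam H i⁆ ≤ KS (normalClosure {c}) (j + i) := by
        rw [commutator_le]
        intro a ha b hb
        exact mem_Lam.1 hb c hc j a ha
      exact commutator_mono h4 le_rfl
  rw [← map_commutator, ← map_commutator, Subgroup.map_eq_bot_iff, QuotientGroup.ker_mk'] at h3
  rw [← commutatorElement_inv]
  exact inv_mem (h3 (commutator_mem_commutator
    (commutator_mem_commutator hx (mem_top t)) hk))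

theorem Lam_sq {i : ℕ} (hi : 1 ≤ i) {x : H} (hx : x ∈ Lam H i) : x * x ∈ Lam H (i + 1) := by
  rw [mem_Lam]
  intro c hc j k hk
  have h1 : PW (normalClosure {c}) 1 :=
    PW_all (m := 0) (q := c) hc (by rw [pow_zero, pow_one]) 1 (by norm_num)
  have h2 := double (normalClosure {c}) (w := 1) (d := i) (fun j => (h1 j).2)
    (v := x) (fun j k hk => mem_Lam.1 hx c hc j k hk) j k hk
  rw [← pow_two]
  rwa [show min (2 * i) (i + 1) = i + 1 by omega] at h2

theorem lamTop_le (j : ℕ) : lamS (⊤ : Subgroup H) j ≤ Lam H (j + 1) := by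
  induction j with
  | zero =>
    intro x _
    have := pow_mem_Lam x 0
    rwa [pow_zero, pow_one] at this
  | succ j ih =>
    refine sup_le ?_ ((closure_le _).2 ?_)
    · rw [commutator_le]
      intro x hx t _
      exact Lam_comm (ih hx)
    · rintro _ ⟨x, hx, rfl⟩
      exact Lam_sq (by omega) (ih hx)

end lamTop

section depth

variable {G : Type u} [Group G]

/-- Elements of `lamS S j` have depth `j + 1` in `S`. -/
theorem lamS_mem_Lam {S : Subgroup G} {j : ℕ} {x : G} (hx : x ∈ lamS S j) :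
    (⟨x, lamS_le S j hx⟩ : S) ∈ E1adH4.Lam S (j + 1) := by
  apply lamTop_le
  have h1 := lamS_map S.subtype (⊤ : Subgroup S) j
  have h2 : (⊤ : Subgroup S).map S.subtype = S := by
    rw [← MonoidHom.range_eq_map, range_subtype]
  rw [h2] at h1
  rw [← h1] at hx
  obtain ⟨y, hy, hyx⟩ := hx
  have h3 : (⟨x, lamS_le S j (h1 ▸ ⟨y, hy, hyx⟩)⟩ : S) = y := Subtype.ext hyx.symm
  rw [h3]
  exact hy

end depth

section fin

variable {H : Type u} [Group H]

theorem le_lcs_of_eq {A : Subgroup H} {e : ℕ} (he : ∀ x : H, x ^ (2 ^ e) = 1)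
    (hA : A ≤ ⁅A, (⊤ : Subgroup H)⁆ ⊔ closure {z | ∃ x ∈ A, z = x * x}) (i : ℕ) :
    A ≤ (⊤ : Subgroup H).lowerCentralSeries i := by
  induction i with
  | zero => exact le_top
  | succ i ih =>
    let π : H →* H ⧸ (⊤ : Subgroup H).lowerCentralSeries (i + 1) := QuotientGroup.mk' _
    have hπ : ∀ z : H, π z = 1 ↔ z ∈ (⊤ : Subgroup H).lowerCentralSeries (i + 1) := fun z =>
      QuotientGroup.eq_one_iff z
    have hcent : ∀ a ∈ A, ∀ t : H, Commute (π a) (π t) := by
      intro a ha t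
      rw [← commutatorElement_eq_one_iff_commute, ← map_commutatorElement, hπ]
      exact commutator_mem_commutator (ih ha) (mem_top t)
    have h1 : ∀ a ∈ A, ∃ b ∈ A, π a = π b ^ 2 := by
      intro a ha
      have h2 : π a ∈ (⁅A, (⊤ : Subgroup H)⁆ ⊔ closure {z | ∃ x ∈ A, z = x * x}).map π :=
        mem_map_of_mem π (hA ha)
      have h3 : (⁅A, (⊤ : Subgroup H)⁆).map π = ⊥ := by
        rw [Subgroup.map_eq_bot_iff, QuotientGroup.ker_mk']
        exact commutator_mono ih le_rfl
      rw [Subgroup.map_sup, h3, bot_sup_eq, MonoidHom.map_closure] at h2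
      refine closure_induction (p := fun z _ => ∃ b ∈ A, z = π b ^ 2) ?_ ?_ ?_ ?_ h2
      · rintro _ ⟨_, ⟨x, hx, rfl⟩, rfl⟩
        exact ⟨x, hx, by rw [map_mul, pow_two]⟩
      · exact ⟨1, one_mem _, by rw [map_one, one_pow]⟩
      · rintro _ _ _ _ ⟨b, hb, rfl⟩ ⟨c, hc, rfl⟩
        exact ⟨b * c, mul_mem hb hc, by rw [map_mul, (hcent b hb c).mul_pow]⟩
      · rintro _ _ ⟨b, hb, rfl⟩
        exact ⟨b⁻¹, inv_mem hb, by rw [map_inv, inv_pow]⟩
    have h2 : ∀ m : ℕ, ∀ a ∈ A, ∃ b ∈ A, π a = π b ^ (2 ^ m) := by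
      intro m
      induction m with
      | zero => exact fun a ha => ⟨a, ha, by rw [pow_zero, pow_one]⟩
      | succ m ihm =>
        intro a ha
        obtain ⟨b, hb, hab⟩ := h1 a ha
        obtain ⟨c, hc, hbc⟩ := ihm b hb
        exact ⟨c, hc, by rw [hab, hbc, ← pow_mul, pow_succ]⟩
    intro a ha
    obtain ⟨b, -, hab⟩ := h2 e a ha
    rw [← hπ, hab, ← map_pow, he, map_one]

theorem lamS_eventually [Finite H] (hH : IsPGroup 2 H) : ∃ j, lamS (⊤ : Subgroup H) j = ⊥ := by
  have h1 : ∃ j, lamS (⊤ : Subgroup H) j ≤ lamS (⊤ : Subgroup H) (j + 1) := by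
    by_contra hcon
    push Not at hcon
    have hlt : ∀ j, Nat.card (lamS (⊤ : Subgroup H) (j + 1)) < Nat.card (lamS (⊤ : Subgroup H) j) := by
      intro j
      by_contra h
      exact hcon j (Subgroup.eq_of_le_of_card_ge (lamS_succ_le _ j) (not_lt.1 h)).ge
    have h2 : ∀ j, Nat.card (lamS (⊤ : Subgroup H) j) + j ≤ Nat.card (lamS (⊤ : Subgroup H) 0) := by
      intro j
      induction j with
      | zero => exact le_rfl
      | succ j ih =>
        have := hlt j
        omega
    have h3 := h2 (Nat.card (lamS (⊤ : Subgroup H) 0) + 1)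
    omega
  obtain ⟨j, hj⟩ := h1
  refine ⟨j, ?_⟩
  have hnil : Group.IsNilpotent H := hH.isNilpotent
  obtain ⟨n, hn⟩ := Subgroup.nilpotent_iff_lowerCentralSeries.1 hnil
  obtain ⟨e, he⟩ : ∃ e : ℕ, ∀ x : H, x ^ (2 ^ e) = 1 := by
    obtain ⟨e, he⟩ := (IsPGroup.iff_card (p := 2) (G := H)).1 hH
    refine ⟨e, fun x => ?_⟩
    rw [← he]
    exact pow_card_eq_one'
  rw [eq_bot_iff, ← hn]
  exact le_lcs_of_eq he hj n

/-- the last term of the series which is not contained in `D` -/
theorem exists_last {G : Type u} [Group G] [Finite G] {S D : Subgroup G} (hS : IsPGroup 2 S)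
    (h : ¬ S ≤ D) : ∃ j, ¬ lamS S j ≤ D ∧ lamS S (j + 1) ≤ D := by
  classical
  have hex : ∃ j, lamS S j ≤ D := by
    obtain ⟨j, hj⟩ := lamS_eventually (H := S) hS
    refine ⟨j, ?_⟩
    have h1 := lamS_map S.subtype (⊤ : Subgroup S) j
    have h2 : (⊤ : Subgroup S).map S.subtype = S := by
      rw [← MonoidHom.range_eq_map, range_subtype]
    rw [h2, hj, Subgroup.map_bot] at h1
    rw [← h1]
    exact bot_le
  have h0 : Nat.find hex ≠ 0 := by
    intro h0
    have := Nat.find_spec hex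
    rw [h0] at this
    exact h this
  obtain ⟨j, hj⟩ := Nat.exists_eq_succ_of_ne_zero h0
  refine ⟨j, Nat.find_min hex (by omega), ?_⟩
  have := Nat.find_spec hex
  rw [hj] at this
  exact this

end fin

end E1adH59
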