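import Mathlib
import Pool.Agent.Lib.MP_1ad17e_al_h59.SecSix
import Pool.Agent.Lib.MP_1ad17e_al_h59.Base
import Pool.Agent.Lib.MP_1ad17e_al_h97.Six

/-! MP_1ad17e_al, section 6 in the group `G`. -/

set_option autoImplicit false

universe u

namespace E1adH59

open Subgroup
open scoped commutatorElement Pointwise

theorem l64 : L64.{u} := by
  intro H _ _ Q T _ hT hQT n hTn r hr a hx h hh hodd j s hs v hv
  exact E1adH97.layer64 Q T hT hQT n hTn r hr a hx h hh hodd j s hs v hv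

variable {G : Type u} [Group G] [Finite G]

/-- (6.1), (6.3)-(6.6) -/
theorem sec6G (P : Sylow 2 G) {n k C : ℕ} (hP : (P : Subgroup G).lowerCentralSeries n = ⊥)
    (hk : k = n + C) (hn : n + 3 ≤ 12 * 2 ^ C) {y : G} (hyP : y ∈ (P : Subgroup G)) (hy : y * y = 1)
    (hyr : ∃ r : G, r ^ (2 ^ k) = y) (hyc : ∀ v ∈ (P : Subgroup G), v * v = 1 → y * v = v * y) :
    ∃ T : Sylow 2 G, Om (T : Subgroup G) = Om (P : Subgroup G) ∧ ∃ r ∈ (T : Subgroup G),
      r ^ (2 ^ k) = y ∧ r ^ (2 ^ (C + 2)) ∈ (P : Subgroup G) := by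
  let K : Subgroup G := normalizer (Om (P : Subgroup G) : Set G)
  have hPK : (P : Subgroup G) ≤ K := (le_normalizer).trans (normalizer_le_Om _)
  let PK : Sylow 2 K := P.subtype hPK
  let F : Set K := {z | (z : G) ∈ Om (P : Subgroup G) ∧ (z : G) * z = 1 ∧
    (∃ r : G, r ^ (2 ^ k) = z) ∧ ∀ v ∈ Om (P : Subgroup G), (z : G) * v = v * z}
  have hconj : ∀ g : K, ∀ v : G, v ∈ Om (P : Subgroup G) ↔ (g : G) * v * (g : G)⁻¹ ∈ Om (P : Subgroup G) :=
    fun g v => mem_normalizer_iff.1 g.2 v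
  have hF : ∀ z ∈ F, ∀ g : K, g * z * g⁻¹ ∈ F := by
    rintro z ⟨h1, h2, ⟨r, h3⟩, h4⟩ g
    have e0 : ((g * z * g⁻¹ : K) : G) = (g : G) * z * (g : G)⁻¹ := rfl
    refine ⟨?_, ?_, ⟨g * r * (g : G)⁻¹, ?_⟩, ?_⟩
    · rw [e0, ← hconj]
      exact h1
    · rw [e0]
      calc (g : G) * z * (g : G)⁻¹ * ((g : G) * z * (g : G)⁻¹) = g * (z * z) * (g : G)⁻¹ := by group
        _ = 1 := by rw [h2]; group
    · rw [conj_pow, h3, e0]
    · intro v hv
      have h5 : (g : G)⁻¹ * v * g ∈ Om (P : Subgroup G) := by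
        rw [hconj g]
        have e : (g : G) * ((g : G)⁻¹ * v * g) * (g : G)⁻¹ = v := by group
        rwa [e]
      have h6 := h4 _ h5
      rw [e0]
      calc (g : G) * z * (g : G)⁻¹ * v = g * (z * ((g : G)⁻¹ * v * g)) * (g : G)⁻¹ := by group
        _ = g * (((g : G)⁻¹ * v * g) * z) * (g : G)⁻¹ := by rw [h6]
        _ = v * (g * z * (g : G)⁻¹) := by group
  have hcomm : ∀ z ∈ F, ∀ z' ∈ F, z * z' = z' * z := by
    rintro z ⟨_, _, _, h4⟩ z' ⟨h1, _, _, _⟩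
    exact Subtype.ext (h4 _ h1)
  have hPKn : (PK : Subgroup K).lowerCentralSeries n = ⊥ := by
    have e1 : (PK : Subgroup K).map K.subtype = (P : Subgroup G) := by
      rw [Sylow.coe_subtype, subgroupOf_map_subtype]
      exact inf_eq_left.2 hPK
    have e2 : ((PK : Subgroup K).lowerCentralSeries n).map K.subtype = ⊥ := by
      rw [map_lowerCentralSeries, e1]
      exact hP
    exact (map_eq_bot_iff_of_injective _ K.subtype_injective).1 e2
  have hOmP : IsPGroup 2 (Om (P : Subgroup G)) := P.isPGroup'.to_le (Om_le _)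
  have hroot : ∀ z ∈ F, ∃ r : K, r ^ (2 ^ k) = z ∧ ∃ T : Sylow 2 K, r ∈ (T : Subgroup K) := by
    rintro z ⟨h1, h2, ⟨r, h3⟩, h4⟩
    obtain ⟨T, hT, r', hr', hr'z⟩ := exists_root h2 h3 (Om (P : Subgroup G)) hOmP
      (fun x hx => (h4 x hx).symm)
    have hTK : (T : Subgroup G) ≤ K := by
      have h5 : (T : Subgroup G) ≤ normalizer (Om (T : Subgroup G) : Set G) :=
        (le_normalizer).trans (normalizer_le_Om _)
      rwa [Om_eq_of_le hT] at h5
    refine ⟨⟨r', hTK hr'⟩, Subtype.ext hr'z, T.subtype hTK, ?_⟩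
    exact hr'
  have hyO : y ∈ Om (P : Subgroup G) := mem_Om hyP hy
  have hyF : (⟨y, hPK hyP⟩ : K) ∈ F := ⟨hyO, hy, hyr, commute_Om hyc⟩
  obtain ⟨TK, r, hrT, hr, hrP⟩ := sec6 l64 F hF hcomm PK hPKn hk hn hroot hyF
  obtain ⟨g, rfl⟩ := MulAction.exists_smul_eq K PK TK
  refine ⟨(g : G) • P, ?_, r, ?_, congrArg Subtype.val hr, hrP⟩
  · rw [Sylow.coe_subgroup_smul, Om_smul]
    exact mem_normalizer_iff_smul.1 g.2
  · rw [Sylow.coe_subgroup_smul, mem_pointwise_smul_iff_inv_smul_mem] at hrT ⊢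
    have e1 : ((MulAut.conj (g : G))⁻¹ • (r : G)) = (((MulAut.conj g)⁻¹ • r : K) : G) := by
      rw [← map_inv, ← map_inv]
      simp
    rw [e1]
    exact hrT

end E1adH59
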