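import Mathlib
import Pool.Agent.Lib.MP_1ad17e_al_h59.LamS
import Pool.Agent.Lib.MP_1ad17e_al_h59.SecSixG

/-! MP_1ad17e_al: root improvement (K4) and section (6.2). -/

set_option autoImplicit false

universe u

namespace E1adH59

open Subgroup
open scoped commutatorElement Pointwise

section rootImp

open E1adH4

variable {H : Type u} [Group H]

theorem rootImp_aux {x c : H} (hc : c * c = 1) (j s : ℕ) :
    ∃ κ ∈ KS (normalClosure {c}) (j + (s + 1)),
      (x ^ (2 ^ j) * c) ^ (2 ^ (s + 1)) = x ^ (2 ^ (j + (s + 1))) * κ := by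
  have hci : c⁻¹ = c := inv_eq_of_mul_eq_one_left hc
  induction s with
  | zero =>
    set g := x ^ (2 ^ j) with hg
    have h1 := depth (m := 0) (q := c) hc (by rw [pow_zero, pow_one]) x j 0 c
      (subset_normalClosure (Set.mem_singleton c))
    rw [dd_zero, Nat.zero_add, ← hg] at h1
    refine ⟨g⁻¹ * ⁅c, g⁆ * g, ?_, ?_⟩
    · have h2 := (KS_normal (normalClosure {c}) (j + 1)).conj_mem _ h1 g⁻¹
      rwa [inv_inv] at h2
    · have e : x ^ (2 ^ (j + (0 + 1))) = g * g := by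
        rw [hg, Nat.zero_add, pow_succ, pow_mul, pow_two]
      rw [e, Nat.zero_add, pow_one, pow_two]
      have e2 : g * g * (g⁻¹ * ⁅c, g⁆ * g) = g * c * g * c⁻¹ := by
        rw [commutatorElement_def]
        group
      rw [e2, hci]
      group
  | succ s ih =>
    obtain ⟨κ, hκ, h⟩ := ih
    set h0 := x ^ (2 ^ (j + (s + 1))) with hh0
    have hPW : PW (normalClosure {c}) 1 :=
      PW_all (m := 0) (q := c) hc (by rw [pow_zero, pow_one]) 1 (by norm_num)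
    have h2 := (hPW (j + (s + 1))).2 κ hκ
    have h3 : ⁅κ, h0⁻¹⁆ ∈ KS (normalClosure {c}) (j + (s + 1) + 1) := KS_comm _ hκ _
    refine ⟨⁅h0⁻¹, κ⁆ * (κ * κ), ?_, ?_⟩
    · rw [show j + (s + 1 + 1) = j + (s + 1) + 1 by omega]
      refine mul_mem ?_ h2
      rw [← commutatorElement_inv]
      exact inv_mem h3
    · have e1 : (x ^ (2 ^ j) * c) ^ (2 ^ (s + 1 + 1)) = (h0 * κ) * (h0 * κ) := by
        rw [pow_succ 2 (s + 1), pow_mul, h, pow_two]
      have e2 : x ^ (2 ^ (j + (s + 1 + 1))) = h0 * h0 := by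
        rw [hh0, show j + (s + 1 + 1) = j + (s + 1) + 1 by omega, pow_succ, pow_mul, pow_two]
      rw [e1, e2, commutatorElement_def]
      group

/-- (K4) -/
theorem rootImp {n : ℕ} (hH : (⊤ : Subgroup H).lowerCentralSeries n = ⊥) {x c : H} (hc : c * c = 1)
    (j s : ℕ) (hs : 1 ≤ s) (hjs : n ≤ j + s) :
    (x ^ (2 ^ j) * c) ^ (2 ^ s) = x ^ (2 ^ (j + s)) := by
  obtain ⟨s, rfl⟩ := Nat.exists_eq_add_of_le' hs
  obtain ⟨κ, hκ, h⟩ := rootImp_aux (x := x) hc j s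
  have h1 := (⊤ : Subgroup H).lowerCentralSeries_antitone hjs (KS_le_lcs _ _ hκ)
  rw [hH, mem_bot] at h1
  rw [h, h1, mul_one]

/-- (K4) in a subgroup -/
theorem rootImp' {G : Type u} [Group G] {T : Subgroup G} {n : ℕ} (hT : T.lowerCentralSeries n = ⊥)
    {x c : G} (hx : x ∈ T) (hcT : c ∈ T) (hc : c * c = 1) (j s : ℕ) (hs : 1 ≤ s) (hjs : n ≤ j + s) :
    (x ^ (2 ^ j) * c) ^ (2 ^ s) = x ^ (2 ^ (j + s)) := by
  have hH : (⊤ : Subgroup T).lowerCentralSeries n = ⊥ := by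
    have h1 := Subgroup.top_subtype_lowerCentralSeries T n
    rw [hT] at h1
    exact (map_eq_bot_iff_of_injective _ T.subtype_injective).1 h1
  have h2 := rootImp hH (x := ⟨x, hx⟩) (c := ⟨c, hcT⟩) (Subtype.ext hc) j s hs hjs
  exact congrArg Subtype.val h2

end rootImp

variable {G : Type u} [Group G] [Finite G]

/-- (6.2) -/
theorem sec62 (P : Sylow 2 G) (D : Subgroup G) (hDP : D ≤ P) (hnP : ¬ (P : Subgroup G) ≤ D)
    {n k C : ℕ} (hP : (P : Subgroup G).lowerCentralSeries n = ⊥) (hk : k = n + C)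
    (hn : n + 3 ≤ 12 * 2 ^ C) {y : G} (hyD : y ∈ D) (hy : y * y = 1) (hyr : ∃ r : G, r ^ (2 ^ k) = y)
    (hyc : ∀ v ∈ (P : Subgroup G), v * v = 1 → y * v = v * y)
    (h36 : ∀ g ∈ (P : Subgroup G), g ∉ D → (∀ z ∈ D, g * z * g⁻¹ ∈ D) → g * g ∈ D →
      ∃ v : G, v * v = 1 ∧ ∃ z ∈ D, v = g * z)
    (hA : ∀ j, ¬ lamS (P : Subgroup G) j ≤ D → lamS (P : Subgroup G) (j + 1) ≤ D →
      ∀ d ∈ D, ∀ m, d ^ (2 ^ m) = y → m + j + 3 ≤ n) : False := by
  obtain ⟨T, hT, r, hrT, hr, hrP⟩ := sec6G P hP hk hn (hDP hyD) hy hyr hyc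
  obtain ⟨j, hj1, hj2⟩ := exists_last P.isPGroup' hnP
  rcases Nat.lt_or_ge (C + 2 + j) k with hlt | hge
  swap
  · have := hA j hj1 hj2 y hyD 0 (by rw [pow_zero, pow_one])
    omega
  obtain ⟨g, hg⟩ : ∃ g, g = r ^ (2 ^ (C + 2 + j)) := ⟨_, rfl⟩
  obtain ⟨m, hm⟩ : ∃ m, C + 2 + j + m = k := ⟨k - (C + 2 + j), by omega⟩
  have hgm : g ^ (2 ^ m) = y := by
    rw [hg, ← pow_mul, ← pow_add, hm, hr]
  have hgl : g ∈ lamS (P : Subgroup G) j := by
    have h1 := lamS_pow (S := (P : Subgroup G)) (i := 0) hrP j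
    rw [Nat.zero_add, ← pow_mul, ← pow_add] at h1
    rw [hg]
    exact h1
  have hgP : g ∈ (P : Subgroup G) := lamS_le _ _ hgl
  by_cases hgD : g ∈ D
  · have := hA j hj1 hj2 g hgD m hgm
    omega
  have hgn : ∀ z ∈ D, g * z * g⁻¹ ∈ D := by
    intro z hz
    have e : g * z * g⁻¹ = ⁅g, z⁆ * z := by
      rw [commutatorElement_def]
      group
    rw [e]
    exact mul_mem (hj2 (lamS_comm hgl (hDP hz))) hz
  obtain ⟨v, hv, z, hz, hvz⟩ := h36 g hgP hgD hgn (hj2 (lamS_sq hgl))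
  have hvP : v ∈ (P : Subgroup G) := by
    rw [hvz]
    exact mul_mem hgP (hDP hz)
  have hvT : v ∈ (T : Subgroup G) := by
    have h1 := mem_Om hvP hv
    rw [← hT] at h1
    exact Om_le _ h1
  have hTn : (T : Subgroup G).lowerCentralSeries n = ⊥ := sylow_lcs P T hP
  have hd : g * v ∈ D := by
    rw [hvz, ← mul_assoc]
    exact mul_mem (hj2 (lamS_sq hgl)) hz
  have hdm : (g * v) ^ (2 ^ m) = y := by
    rw [hg, rootImp' hTn hrT hvT hv (C + 2 + j) m (by omega) (by omega), hm, hr]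
  have := hA j hj1 hj2 (g * v) hd m hdm
  omega

end E1adH59
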